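import Pool.Agent.H97.Spd1

namespace Pool.Agent.Results.MP_4fbaa5_co.SmallT

open Pool.Agent.H97.Spd

/-- Edge set of the spanning spider with centre `v` and legs `v - a i - b i`; all other vertices
are leaves adjacent to `v`. -/
def spider {n t : ℕ} (v : Fin n) (a b : Fin t → Fin n) : Set (Sym2 (Fin n)) :=
  {e | ∃ x, x ≠ v ∧ (∀ i, x ≠ b i) ∧ e = s(v, x)} ∪ {e | ∃ i, e = s(a i, b i)}

/-- Every proper edge-colouring of `K_n` contains a spanning rainbow `t`-spider. -/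
def Good (n t : ℕ) : Prop :=
  ∀ (C : Type) (col : Sym2 (Fin n) → C),
    (∀ x y z : Fin n, x ≠ y → x ≠ z → y ≠ z → col s(x, y) ≠ col s(x, z)) →
    ∃ (v : Fin n) (a b : Fin t → Fin n), Function.Injective a ∧ Function.Injective b ∧
      (∀ i j, a i ≠ b j) ∧ (∀ i, a i ≠ v ∧ b i ≠ v) ∧ Set.InjOn col (spider v a b)

theorem result (n t : ℕ) (ht : 3 ≤ t) (hn : 100 * t ≤ n) : Good n t := by
  intro C col hcol
  have hp : ∀ x y z : Fin n, x ≠ y → x ≠ z → col s(x, y) = col s(x, z) → y = z :=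
    fun x y z h1 h2 e => by_contra fun h => hcol x y z h1 h2 h e
  let v : Fin n := ⟨0, by omega⟩
  obtain ⟨a, b, ⟨d1, d2, d3, d4, d5⟩, h1, h2⟩ := main v (fun x y => col s(x, y))
    (fun x y => by rw [Sym2.eq_swap]) hp t ht (by simpa using hn)
  refine ⟨v, fun i => a i, fun i => b i, fun i j e => Fin.ext (d4 _ i.2 _ j.2 e),
    fun i j e => Fin.ext (d5 _ i.2 _ j.2 e), fun i j => d3 _ i.2 _ j.2,
    fun i => ⟨d1 _ i.2, d2 _ i.2⟩, ?_⟩
  have h3 : ∀ (x : Fin n) (i : Fin t), x ≠ v → (∀ j : Fin t, x ≠ b j) →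
      col s(v, x) ≠ col s(a i, b i) := fun x i hx hb => by
    rw [Sym2.eq_swap (a := a i)]
    exact h2 i i.2 x hx fun j hj => (hb ⟨j, hj⟩).symm
  rintro _ (⟨x, x1, x2, rfl⟩ | ⟨i, rfl⟩) _ (⟨y, y1, y2, rfl⟩ | ⟨j, rfl⟩) e
  · rw [hp v x y x1.symm y1.symm e]
  · exact absurd e (h3 x j x1 x2)
  · exact absurd e.symm (h3 y i y1 y2)
  · rw [Sym2.eq_swap (a := a i), Sym2.eq_swap (a := a j)] at e
    rw [Fin.ext (h1 _ i.2 _ j.2 e)]

end Pool.Agent.Results.MP_4fbaa5_co.SmallT
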